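import Pool.Agent.Helper90.MZ.StmtsA

/-!
# MP_79eb7e_lc, full answer: ENIU, ENI types
-/

set_option autoImplicit false

namespace Pool.Agent.Helper90.MZ

open Pool.Agent.Helper90.TS

variable {V G : Type} [Group G] [MulAction G V] {X : Ctx V G}

/-- an atomic model over a countable set -/
theorem eniu_atm (h1 : ST_MDLB) (h2 : ST_PRIM) (X : Ctx V G) {A : Set V} (hA : A.Countable) :
    ∃ M, Atm X A M := by
  obtain ⟨M0, hAM, hM0⟩ := st_SATM V G X A hA
  obtain ⟨M, _, hM⟩ := h2 V G X A M0 ((h1 V G X).1 M0 hM0) hAM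
  exact ⟨M, hM⟩

theorem eniu_one (h1 : ST_OPN) (h2 : ST_RLB) (h3 : ST_ISLB) {q : Ty V} (hq : SR X q)
    {F F' : Set V} {y y' : Fin 1 → V} (hF : F ⊆ F') (hF' : F'.Countable) (hy : Rl X q F y)
    (hy' : Rl X q F' y') (hn : ¬ Isl X (q.A ∪ F) y) : ¬ Isl X (q.A ∪ F') y' := by
  intro hI
  have hFc : F.Countable := hF'.mono hF
  have hAF : (q.A ∪ F).Countable := hq.cnt.union hFc
  have h5 := (h2 V G X q hq F hFc).2.2.2.2.1 y' F' hF' (by
    rw [Set.union_eq_self_of_subset_left hF]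
    exact hy')
  have h6 := (si_add_base hAF (Set.countable_range y') hF').2 h5
  have e : q.A ∪ F ∪ F' = q.A ∪ F' := by
    rw [Set.union_assoc, Set.union_eq_self_of_subset_left hF]
  rw [e] at h6
  have h7 := h1 V G X (q.A ∪ F) (q.A ∪ F') (Set.union_subset_union_right _ hF)
    (hq.cnt.union hF') (Fin 1) y' hI h6
  have h8 : Rl X q F y' := (h2 V G X q hq F' hF').2.2.1 y' hy' F
    (hF.trans Set.subset_union_right)
  have h9 := (h2 V G X q hq F hFc).2.1 y' y h8 hy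
  exact hn ((h3 V G X (q.A ∪ F) hAF (Fin 1) y').2.2.2.2.2.2 y h9 h7)

/-- independent sequences in a model in which `q` is unbounded -/
theorem eniu_seq {q : Ty V} {N : Set V} (hn : ¬ Bd X q N) :
    ∃ y : ℕ → Fin 1 → V, ∀ n, Set.range (y n) ⊆ N ∧
      Rl X q (⋃ j ∈ {j | j < n}, Set.range (y j)) (y n) := by
  classical
  have key : ∀ s : {F : Set V // F.Finite ∧ F ⊆ N}, ∃ y : Fin 1 → V, Set.range y ⊆ N ∧
      Rl X q s.1 y := by
    rintro ⟨F, hF, hFN⟩
    by_contra hc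
    refine hn ⟨F, hF, hFN, fun y hy hr => hc ⟨y, hy, hr⟩⟩
  choose f hf using key
  let st : ℕ → {F : Set V // F.Finite ∧ F ⊆ N} := fun n =>
    Nat.rec ⟨∅, Set.finite_empty, Set.empty_subset _⟩
      (fun _ s => ⟨s.1 ∪ Set.range (f s), s.2.1.union (Set.finite_range _),
        Set.union_subset s.2.2 (hf s).1⟩) n
  have hst : ∀ n, (st (n + 1)).1 = (st n).1 ∪ Set.range (f (st n)) := fun n => rfl
  have hst' : ∀ n, (st n).1 = ⋃ j ∈ {j | j < n}, Set.range (f (st j)) := by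
    intro n
    induction n with
    | zero =>
      have : {j : ℕ | j < 0} = ∅ := by
        ext j
        simp
      rw [this, Set.biUnion_empty]
      rfl
    | succ n ih =>
      have : {j : ℕ | j < n + 1} = insert n {j : ℕ | j < n} := by
        ext j
        simp only [Set.mem_ofPred_eq, Set.mem_insert_iff]
        omega
      rw [hst, ih, this, Set.biUnion_insert, Set.union_comm]
  refine ⟨fun n => f (st n), fun n => ⟨(hf (st n)).1, ?_⟩⟩
  have := (hf (st n)).2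
  rw [hst' n] at this
  exact this

theorem eniu_two (h1 : ST_OPN) (h2 : ST_RLB) (h3 : ST_ISLB) (h4 : ST_MDLB) (h5 : ST_PRIM)
    (h6 : ST_PUNI) (h7 : ST_INVA) (h8 : ST_WT) (h9 : ST_IND) {q : Ty V} (hq : ENI X q)
    {E N : Set V} (hE : E.Finite) (hqE : q.A ⊆ E) (hN : Atm X E N) : Bd X q N := by
  classical
  obtain ⟨hsr, hqf, F0, hF0, hqF0, hF0i⟩ := hq
  obtain ⟨N0, hN0⟩ := eniu_atm h4 h5 X (hF0.union hE).countable
  obtain ⟨N', hN'N, hN'⟩ := h5 V G X E N0 hN0.1 (Set.subset_union_right.trans hN0.2.1)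
  obtain ⟨h, hh, hhN⟩ := h6 V G X E N' N 1 hN' (by rw [tr_one]; exact hN)
  have hfx : h ∈ Fx G q.A := by
    intro x hx
    rw [hh x (hqE hx), one_smul]
  by_contra hnb
  have hnb' : ¬ Bd X q N' := by
    intro hb
    have h10 := (h7 V G X h).2.2.2.2.2.2.2.1 q N' hsr.cnt hb
    rw [hhN] at h10
    obtain ⟨F, hF, hFN, hom⟩ := h10
    refine hnb ⟨F, hF, hFN, fun y hy hr => hom y hy ?_⟩
    exact (((h7 V G X h).2.2.2.2.2.2.2.2.2.2.2 q hsr hfx).2.2.1 F y).2 hr
  obtain ⟨y, hy⟩ := eniu_seq hnb'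
  have hind : Ind X q.A (fun i => Set.range (y i)) :=
    (h9 V G X q.A hsr.cnt).1 (fun i => Set.range (y i)) (fun i => Set.countable_range _)
      (fun i => (hy i).2.2)
  obtain ⟨k, hk⟩ := h8 V G X q.A (F0 ∪ E) hsr.cnt (hF0.union hE)
  have hind' : Ind X (q.A ∪ ∅) (fun i : Fin (k + 1) => Set.range (y i)) := by
    rw [Set.union_empty]
    exact (h9 V G X q.A hsr.cnt).2.2.1 ℕ (Fin (k + 1)) (fun i => Set.range (y i))
      (fun i => (i : ℕ)) Fin.val_injective hind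
  obtain ⟨J, hJ, hJs⟩ := hk ∅ Set.countable_empty si_empty_right (k + 1)
    (fun i => Set.range (y i)) (fun i => Set.countable_range _) hind'
  obtain ⟨i, hi⟩ : ∃ i : Fin (k + 1), i ∉ J := by
    by_contra hc
    have : J = Finset.univ := by
      ext i
      constructor
      · intro _
        exact Finset.mem_univ i
      · intro _
        by_contra hi
        exact hc ⟨i, hi⟩
    rw [this, Finset.card_univ, Fintype.card_fin] at hJ
    omega
  rw [Set.union_empty] at hJs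
  have hs : SI X q.A (Set.range (y i)) (F0 ∪ E) := by
    refine si_left ?_ hJs
    intro x hx
    exact Set.mem_biUnion (show i ∈ {i | i ∉ J} from hi) hx
  have hr : Rl X q (F0 ∪ E) (y i) := ⟨(hy i).2.1, hs⟩
  have hr0 : Rl X q F0 (y i) := (h2 V G X q hsr (F0 ∪ E) (hF0.union hE).countable).2.2.1 (y i) hr
    F0 (Set.subset_union_left.trans Set.subset_union_right)
  have hI : Isl X (F0 ∪ E) (y i) := hN0.2.2 1 (y i) ((hy i).1.trans hN'N)
  have h11 := eniu_one h1 h2 h3 hsr (Set.subset_union_left (s := F0) (t := E))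
    (hF0.union hE).countable hr0 hr (by
      rw [Set.union_eq_self_of_subset_left hqF0]
      exact hF0i _ hr0)
  rw [Set.union_eq_self_of_subset_left (hqF0.trans Set.subset_union_left)] at h11
  exact h11 hI

theorem st_ENIU (h1 : ST_OPN) (h2 : ST_RLB) (h3 : ST_ISLB) (h4 : ST_MDLB) (h5 : ST_PRIM)
    (h6 : ST_PUNI) (h7 : ST_INVA) (h8 : ST_WT) (h9 : ST_IND) (h10 : ST_BC) (h11 : ST_BNI)
    (h12 : ST_NOEQ) : ST_ENIU := by
  intro V G _ _ X q
  refine ⟨?_, ?_, ?_, ?_, ?_⟩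
  · intro hq F F' y y' hF hF' hy hy' hn
    exact eniu_one h1 h2 h3 hq hF hF' hy hy' hn
  · intro hq E N hE hqE hN
    exact eniu_two h1 h2 h3 h4 h5 h6 h7 h8 h9 hq hE hqE hN
  · intro hq N hN hqN
    obtain ⟨N1, hN1N, hN1⟩ := h5 V G X q.A N hN hqN
    obtain ⟨F, hF, hFN, hom⟩ := eniu_two h1 h2 h3 h4 h5 h6 h7 h8 h9 hq hq.2.1 le_rfl hN1
    have hsr := hq.1
    have hF1 : (q.A ∪ F).Finite := hq.2.1.union hF
    have hAF : q.A ∪ (q.A ∪ F) = q.A ∪ F :=
      Set.union_eq_self_of_subset_left Set.subset_union_left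
    refine ⟨q.A ∪ F, hF1, Set.subset_union_left, Set.union_subset hqN (hFN.trans hN1N), ?_⟩
    intro y hy
    have hbc := h10 V G X q (q.A ∪ F) y hsr hF1.countable hy
    rw [hAF] at hbc
    refine ⟨⟨hbc.1, hF1, ?_⟩, hbc.2.2.2⟩
    intro hI
    obtain ⟨c', hc', hcy⟩ := (h3 V G X (q.A ∪ F) hF1.countable (Fin 1) y).2.2.2.2.1 N1 hN1.1
      (Set.union_subset hN1.2.1 hFN) hI
    have hr : Rl X q (q.A ∪ F) c' :=
      (h2 V G X q hsr (q.A ∪ F) hF1.countable).2.2.2.2.2.1 y c' hy (by rw [hAF]; exact hcy)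
    refine hom c' hc' ?_
    exact (h2 V G X q hsr (q.A ∪ F) hF1.countable).2.2.1 c' hr F
      (Set.subset_union_right.trans Set.subset_union_right)
  · intro hq q' hq' hqf' hno
    by_contra hn
    have key : ∀ F' : Set V, F'.Finite → q'.A ⊆ F' → ∃ y, Rl X q' F' y ∧ Isl X F' y := by
      intro F' hF' hqF'
      by_contra hc
      refine hn ⟨hq', hqf', F', hF', hqF', fun y hy hI => hc ⟨y, hy, hI⟩⟩
    obtain ⟨N, hN⟩ := eniu_atm h4 h5 X (hq.2.1.union hqf').countable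
    have hqN : q.A ⊆ N := Set.subset_union_left.trans hN.2.1
    have hqN' : q'.A ⊆ N := Set.subset_union_right.trans hN.2.1
    have hb := eniu_two h1 h2 h3 h4 h5 h6 h7 h8 h9 hq (hq.2.1.union hqf')
      Set.subset_union_left hN
    obtain ⟨F, hF, hFN, hom⟩ := h11 V G X q' q N hq' hq.1 hqf' hq.2.1 hN.1 hqN' hqN
      ((h12 V G X).2.1 q q' hno) hb
    have hF1 : (q'.A ∪ F).Finite := hqf'.union hF
    have hAF : q'.A ∪ (q'.A ∪ F) = q'.A ∪ F :=
      Set.union_eq_self_of_subset_left Set.subset_union_left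
    obtain ⟨y, hy, hI⟩ := key (q'.A ∪ F) hF1 Set.subset_union_left
    obtain ⟨c', hc', hcy⟩ := (h3 V G X (q'.A ∪ F) hF1.countable (Fin 1) y).2.2.2.2.1 N hN.1
      (Set.union_subset hqN' hFN) hI
    have hr : Rl X q' (q'.A ∪ F) c' :=
      (h2 V G X q' hq' (q'.A ∪ F) hF1.countable).2.2.2.2.2.1 y c' hy (by rw [hAF]; exact hcy)
    refine hom c' hc' ?_
    exact (h2 V G X q' hq' (q'.A ∪ F) hF1.countable).2.2.1 c' hr F
      (Set.subset_union_right.trans Set.subset_union_right)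
  · rintro ⟨hq, hqf, hI⟩
    refine ⟨hq, hqf, q.A, hqf, le_rfl, ?_⟩
    intro y hy hIy
    exact hI ((h3 V G X q.A hq.cnt (Fin 1) y).2.2.2.2.2.2 q.z (eqv_symm hy.1) hIy)

end Pool.Agent.Helper90.MZ
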