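import Pool.Agent.Helper90.MZ.StmtsA

/-!
# MP_79eb7e_lc, full answer: EXCH, exchange
-/

set_option autoImplicit false

namespace Pool.Agent.Helper90.MZ

open Pool.Agent.Helper90.TS

variable {V G : Type} [Group G] [MulAction G V] {X : Ctx V G}

/-- an atomic model over a countable set -/
theorem exch_atm (h1 : ST_MDLB) (h2 : ST_PRIM) (X : Ctx V G) {A : Set V} (hA : A.Countable) :
    ∃ M, Atm X A M := by
  obtain ⟨M0, hAM, hM0⟩ := st_SATM V G X A hA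
  obtain ⟨M, _, hM⟩ := h2 V G X A M0 ((h1 V G X).1 M0 hM0) hAM
  exact ⟨M, hM⟩

/-- invariance of the set of parameters of large rank -/
theorem exch_rinv {N : Set V} {α : Ordinal.{0}} {D : Set (Fin 1 → V)}
    {E : Set (Fin 1 ⊕ Fin 1 → V)} (hD : X.Ov N D) (hE : X.Ov N E) :
    Inv (Fx G N) {z : Fin 1 → V | X.Rge α (D ∩ {x | Sum.elim z x ∈ E})} := by
  intro g hg z hz
  have h3 := (a_rbas V G X (Fin 1)).2.2.1 α (D ∩ {x | Sum.elim z x ∈ E}) g⁻¹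
  have e : {x | g⁻¹ • x ∈ D ∩ {x | Sum.elim z x ∈ E}} = D ∩ {x | Sum.elim (g • z) x ∈ E} := by
    ext x
    have e1 : g⁻¹ • x ∈ D ↔ x ∈ D := inv_iff hD.2 (inv_mem hg) x
    have e2 : Sum.elim z (g⁻¹ • x) ∈ E ↔ Sum.elim (g • z) x ∈ E := by
      have := inv_iff hE.2 hg (Sum.elim z (g⁻¹ • x))
      rw [smul_elim, smul_inv_smul] at this
      exact this.symm
    exact and_congr e1 e2
  rw [e] at h3
  exact h3.2 hz

theorem exch_dep (h2 : ST_USEV) (h3 : ST_RLB) {p : Ty V} {N N' : Set V} {y y' : Fin 1 → V}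
    (hp : SR X p) (hN : Mdl X N) (hpA : p.A ⊆ N) (hN' : Atm X (N ∪ Set.range y') N')
    (hy : Set.range y ⊆ N') (hr : Rl X p N y) : ¬ SI X N (Set.range y) (Set.range y') := by
  intro hsi
  have hI : Isl X (N ∪ Set.range y') y := hN'.2.2 1 y hy
  have := h2 V G X N (Set.range y') hN (Set.countable_range y') (Fin 1) y hI hsi
  exact (h3 V G X p hp N hN.1).2.2.2.2.2.2.2.1 y hr hN hpA this

/-- the key step: dependence on `x'` in `q.D` implies that `x'` realizes `q|N` -/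
theorem exch_key (h1 : ST_MDLB) (h2 : ST_USEV) (h3 : ST_RLB) (h4 : ST_PRIM) (h5 : ST_NWO)
    (h6 : ST_SRL) {p q : Ty V} {N : Set V} {y x' : Fin 1 → V}
    (hp : SR X p) (hq : SR X q) (hN : Mdl X N) (hpA : p.A ⊆ N) (hqA : q.A ⊆ N) (hno : NO X q p)
    (hr : Rl X p N y) (hx : x' ∈ q.D) (hd : ¬ SI X N (Set.range y) (Set.range x')) :
    Rl X q N x' := by
  by_contra hnr
  have hreg := (hq.reg N hN.1 x' hx).resolve_left hnr
  rw [Set.union_eq_self_of_subset_left hqA] at hreg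
  obtain ⟨N1, hN1⟩ := exch_atm h1 h4 X (hN.1.union (Set.countable_range x'))
  have hom : Om X q N N1 := by
    intro z hz hrz
    exact exch_dep h2 h3 hq hN hqA hN1 hz hrz (hreg z hrz)
  have hom' : Om X p N N1 := by
    intro y1 hy1 hry1
    obtain ⟨z, hz, hrz⟩ := h5 V G X q p N N1 y1 hq hp hno hN hqA hpA hry1 hN1.1
      (Set.subset_union_left.trans hN1.2.1) hy1
    exact hom z hz hrz
  have hNN1 : N ⊆ N1 := Set.subset_union_left.trans hN1.2.1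
  have hry := h6 V G X p N N1 hp hN1.1 (hpA.trans hNN1) hNN1 hom' y hr
  have hsi := (h3 V G X p hp N hN.1).2.2.2.2.1 y N1 hN1.1.1 (by
    rw [Set.union_eq_self_of_subset_left hNN1]
    exact hry)
  rw [Set.union_eq_self_of_subset_left hpA] at hsi
  exact hd (si_right hN.1 (Set.countable_range y) hN1.1.1
    (Set.subset_union_right.trans hN1.2.1) hsi)

theorem exch_isl (h1 : ST_MDLB) (h2 : ST_USEV) (h3 : ST_RLB) (h4 : ST_PRIM) (h5 : ST_NWO)
    (h6 : ST_SRL) {p q : Ty V} {N : Set V} {y y' : Fin 1 → V}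
    (hp : SR X p) (hq : SR X q) (hN : Mdl X N) (hpA : p.A ⊆ N) (hqA : q.A ⊆ N) (hno : NO X q p)
    (hr : Rl X p N y) (hr' : Rl X q N y') (hd : ¬ SI X N (Set.range y) (Set.range y'))
    (hI : Isl X (N ∪ Set.range y') y) : Isl X (N ∪ Set.range y) y' := by
  obtain ⟨b1, b2, b3, b4, b5, b6⟩ := a_rkb V G X (Fin 1) y
  obtain ⟨D0, hD0, hyD0, hrD0⟩ := b1 N
  obtain ⟨E1, hE1, hyE1, hrE1⟩ := b1 (N ∪ Set.range y')
  obtain ⟨E0, hE0, hyE0, hE0t⟩ := hI
  obtain ⟨E, hE, hEE⟩ := a_fsu2 V G X N hN.1 (Fin 1) (Fin 1) y' (E0 ∩ E1) (ov_inter hE0 hE1)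
  have hmem : ∀ x, Sum.elim y' x ∈ E ↔ x ∈ E0 ∩ E1 := fun x => by
    rw [hEE]
    exact Iff.rfl
  have hlt : X.rk (N ∪ Set.range y') y < X.rk N y := by
    refine lt_of_le_of_ne (b4 _ _ Set.subset_union_left) ?_
    intro h
    exact hd ((rk_si hN.1 (Set.countable_range y')).1 h)
  have hsm : ¬ X.Rge (X.rk N y) (D0 ∩ {x | Sum.elim y' x ∈ E}) := by
    intro h
    have h7 := (a_rbas V G X (Fin 1)).1 (X.rk N y) _ E1 hE1.1 (by
      rintro x ⟨_, hx⟩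
      exact ((hmem x).1 hx).2) h
    exact absurd ((hrE1 _).1 h7) (not_le.2 hlt)
  have hR : X.Ov N {z : Fin 1 → V | X.Rge (X.rk N y) (D0 ∩ {x | Sum.elim z x ∈ E})} := by
    refine ⟨a_def V G X (Fin 1) (Fin 1) (X.rk N y) D0 E hD0.1 ?_ hE.1, exch_rinv hD0 hE⟩
    intro h
    exact absurd ((hrD0 _).1 h) (not_le.2 (Order.lt_succ _))
  refine ⟨(q.D ∩ {x' : Fin 1 → V | Sum.elim x' y ∈ E}) \
    {z : Fin 1 → V | X.Rge (X.rk N y) (D0 ∩ {x | Sum.elim z x ∈ E})},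
    ov_diff (ov_inter (ov_mono X (hqA.trans Set.subset_union_left) hq.ov) (ov_secr hE y))
      (ov_mono X Set.subset_union_left hR), ?_, ?_⟩
  · exact ⟨⟨(h3 V G X q hq N hN.1).2.2.2.2.2.2.1 y' hr', (hmem y).2 ⟨hyE0, hyE1⟩⟩, hsm⟩
  · rintro x' ⟨⟨hx1, hx2⟩, hx3⟩
    have hd' : ¬ SI X N (Set.range y) (Set.range x') := by
      intro hsi
      have h7 := (rk_si hN.1 (Set.countable_range x')).2 hsi
      have h8 := b3 (N ∪ Set.range x') (D0 ∩ {x | Sum.elim x' x ∈ E})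
        (ov_inter (ov_mono X Set.subset_union_left hD0) (ov_sec hE x')) ⟨hyD0, hx2⟩
      rw [h7] at h8
      exact hx3 h8
    have hrx := exch_key h1 h2 h3 h4 h5 h6 hp hq hN hpA hqA hno hr hx1 hd'
    have heq := (h3 V G X q hq N hN.1).2.1 y' x' hr' hrx
    rw [Set.union_eq_self_of_subset_left hqA] at heq
    obtain ⟨σ, hσ, rfl⟩ := heq
    have h9 : Sum.elim y' (σ⁻¹ • y) ∈ E := by
      have := inv_iff hE.2 hσ (Sum.elim y' (σ⁻¹ • y))
      rw [smul_elim, smul_inv_smul] at this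
      exact this.1 hx2
    have h10 := hE0t _ ((hmem _).1 h9).1
    have h11 := (eqv_tr σ).2 h10
    rw [smul_inv_smul, tr_union, tr_fx hσ, tr_range] at h11
    obtain ⟨τ, hτ, hτy⟩ := h11
    obtain ⟨hτ1, hτ2⟩ := fx_union.1 hτ
    refine ⟨τ * σ, fx_union.2 ⟨mul_mem hτ1 hσ, fx_range.2 ?_⟩, ?_⟩
    · rw [mul_smul, hτy]
    · rw [mul_smul]
      exact fx_range.1 hτ2

theorem st_EXCH (h1 : ST_MDLB) (h2 : ST_USEV) (h3 : ST_RLB) (h4 : ST_PRIM) (h5 : ST_NWO)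
    (h6 : ST_SRL) (h7 : ST_NOEQ) (h8 : ST_ATMB) : ST_EXCH := by
  intro V G _ _ X p q N N' y y' hp hq hN hpA hqA hr' hN' hy hr
  have hd := exch_dep h2 h3 hp hN hpA hN' hy hr
  have hno : NO X p q := ⟨N, y, y', hN.1, hpA, hqA, hr, hr', hd⟩
  have hI := exch_isl h1 h2 h3 h4 h5 h6 hp hq hN hpA hqA ((h7 V G X).2.1 p q hno) hr hr' hd
    (hN'.2.2 1 y hy)
  refine ⟨hd, hno, hI, ?_⟩
  have h9 := (h8 V G X (N ∪ Set.range y') N').1 hN' (Set.range y) hy (Set.finite_range y)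
  rw [Set.union_right_comm] at h9
  exact (h8 V G X (N ∪ Set.range y) N').2.1 (Fin 1) y' hI h9

end Pool.Agent.Helper90.MZ
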