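import Pool.Agent.Helper90.MZ.StmtsA

/-!
# MP_79eb7e_lc, full answer: PUNI, uniqueness of atomic models (back and forth)
-/

set_option autoImplicit false

namespace Pool.Agent.Helper90.MZ

open Pool.Agent.Helper90.TS

variable {V G : Type} [Group G] [MulAction G V] {X : Ctx V G}

/-- finite partial maps from `M` to `M'`, elementary over `A` -/
def puni_good (G : Type) {V : Type} [Group G] [MulAction G V] (A M M' : Set V)
    (L : List (V × V)) : Prop :=
  (∀ p ∈ L, p.1 ∈ M ∧ p.2 ∈ M') ∧ ∃ h ∈ Fx G A, ∀ p ∈ L, h • p.1 = p.2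

theorem puni_good_swap {A M M' : Set V} {L : List (V × V)} (h : puni_good G A M M' L) :
    puni_good G A M' M (L.map Prod.swap) := by
  obtain ⟨h1, g, hg, h2⟩ := h
  refine ⟨?_, g⁻¹, inv_mem hg, ?_⟩
  · intro p hp
    rw [List.mem_map] at hp
    obtain ⟨q, hq, rfl⟩ := hp
    exact ⟨(h1 q hq).2, (h1 q hq).1⟩
  · intro p hp
    rw [List.mem_map] at hp
    obtain ⟨q, hq, rfl⟩ := hp
    change g⁻¹ • q.2 = q.1
    rw [← h2 q hq, inv_smul_smul]

theorem puni_forth (h1 : ST_ATMB) (h2 : ST_ISLB) {A M M' : Set V} (hA : Atm X A M)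
    (hA' : Atm X A M') {L : List (V × V)} (hL : puni_good G A M M' L) {c : V} (hc : c ∈ M) :
    ∃ c' : V, puni_good G A M M' ((c, c') :: L) := by
  obtain ⟨hm, g, hg, hgL⟩ := hL
  let F : Set V := {x | ∃ p ∈ L, p.1 = x}
  have hF : F.Finite := by
    have : F = (fun p : V × V => p.1) '' {p | p ∈ L} := by
      ext x
      constructor
      · rintro ⟨p, hp, rfl⟩
        exact ⟨p, hp, rfl⟩
      · rintro ⟨p, hp, rfl⟩
        exact ⟨p, hp, rfl⟩
    rw [this]
    exact (List.finite_toSet L).image _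
  have hFM : F ⊆ M := by
    rintro x ⟨p, hp, rfl⟩
    exact (hm p hp).1
  have hAF : (A ∪ F).Countable := (hA.1.1.mono hA.2.1).union hF.countable
  have hatm : Atm X (A ∪ F) M := (h1 V G X A M).1 hA F hFM hF
  have hI : Isl X (A ∪ F) (fun _ : Fin 1 => c) := by
    apply hatm.2.2 1
    rintro _ ⟨_, rfl⟩
    exact hc
  have hI' : Isl X (tr g (A ∪ F)) (g • (fun _ : Fin 1 => c)) :=
    ((h2 V G X (A ∪ F) hAF (Fin 1) (fun _ => c)).2.2.1 g).2 hI
  have hsub : tr g (A ∪ F) ⊆ M' := by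
    rintro _ ⟨a, ha | ⟨p, hp, rfl⟩, rfl⟩
    · change g • a ∈ M'
      rw [hg a ha]
      exact hA'.2.1 ha
    · change g • p.1 ∈ M'
      rw [hgL p hp]
      exact (hm p hp).2
  obtain ⟨c', hc', k, hk, hkc⟩ := (h2 V G X (tr g (A ∪ F)) (tr_countable g hAF) (Fin 1)
    (g • (fun _ : Fin 1 => c))).2.2.2.2.1 M' hA'.1 hsub hI'
  refine ⟨c' 0, ?_, k * g, ?_, ?_⟩
  · intro p hp
    rw [List.mem_cons] at hp
    rcases hp with rfl | hp
    · exact ⟨hc, hc' ⟨0, rfl⟩⟩
    · exact hm p hp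
  · intro a ha
    rw [mul_smul, hg a ha]
    have := hk (g • a) ⟨a, Or.inl ha, rfl⟩
    rwa [hg a ha] at this
  · intro p hp
    rw [List.mem_cons] at hp
    rcases hp with rfl | hp
    · rw [mul_smul, ← hkc]
      rfl
    · rw [mul_smul]
      have := hk (g • p.1) ⟨p.1, Or.inr ⟨p, hp, rfl⟩, rfl⟩
      rw [hgL p hp] at this ⊢
      exact this

theorem puni_back (h1 : ST_ATMB) (h2 : ST_ISLB) {A M M' : Set V} (hA : Atm X A M)
    (hA' : Atm X A M') {L : List (V × V)} (hL : puni_good G A M M' L) {c : V} (hc : c ∈ M') :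
    ∃ c' : V, puni_good G A M M' ((c', c) :: L) := by
  obtain ⟨c', hc'⟩ := puni_forth h1 h2 hA' hA (puni_good_swap hL) hc
  refine ⟨c', ?_⟩
  have := puni_good_swap hc'
  rw [List.map_cons, List.map_map] at this
  have e : (Prod.swap ∘ Prod.swap : V × V → V × V) = id := by
    ext x <;> rfl
  rw [e, List.map_id] at this
  exact this

theorem puni_ne (X : Ctx V G) {M : Set V} (hM : Mdl X M) (v : V) : M.Nonempty := by
  obtain ⟨B, hB, hx⟩ := ov_sort (X := X) (fun _ : Fin 1 => v)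
  obtain ⟨x, _, hx2⟩ := hM.2 1 B (ov_mono X (Set.empty_subset _) hB) ⟨_, hx⟩
  exact ⟨x 0, hx2 ⟨0, rfl⟩⟩

theorem puni_one (h1 : ST_ATMB) (h2 : ST_ISLB) {A M M' : Set V} (hA : Atm X A M)
    (hA' : Atm X A M') : ∃ h ∈ Fx G A, tr h M = M' := by
  classical
  rcases isEmpty_or_nonempty V with hV | ⟨⟨v⟩⟩
  · refine ⟨1, one_mem _, ?_⟩
    rw [Set.eq_empty_of_isEmpty M', Set.eq_empty_of_isEmpty M, tr_empty]
  obtain ⟨e, he⟩ := hA.1.1.exists_eq_range (puni_ne X hA.1 v)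
  obtain ⟨e', he'⟩ := hA'.1.1.exists_eq_range (puni_ne X hA'.1 v)
  have heM : ∀ j, e j ∈ M := fun j => by rw [he]; exact ⟨j, rfl⟩
  have heM' : ∀ j, e' j ∈ M' := fun j => by rw [he']; exact ⟨j, rfl⟩
  have key : ∀ (k : ℕ) (L : {L : List (V × V) // puni_good G A M M' L}), ∃ p : V × V,
      puni_good G A M M' (p :: L.1) ∧ (∀ j, k = 2 * j → p.1 = e j) ∧
        (∀ j, k = 2 * j + 1 → p.2 = e' j) := by
    rintro k ⟨L, hL⟩
    rcases Nat.even_or_odd' k with ⟨j, hj | hj⟩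
    · obtain ⟨c', hc'⟩ := puni_forth h1 h2 hA hA' hL (heM j)
      refine ⟨(e j, c'), hc', ?_, ?_⟩
      · intro j' hj'
        have : j' = j := by omega
        rw [this]
      · intro j' hj'
        omega
    · obtain ⟨c', hc'⟩ := puni_back h1 h2 hA hA' hL (heM' j)
      refine ⟨(c', e' j), hc', ?_, ?_⟩
      · intro j' hj'
        omega
      · intro j' hj'
        have : j' = j := by omega
        rw [this]
  choose f hf using key
  let st : ℕ → {L : List (V × V) // puni_good G A M M' L} := fun n =>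
    Nat.rec ⟨[], ⟨fun p hp => absurd hp List.not_mem_nil, 1, one_mem _, fun p hp =>
      absurd hp List.not_mem_nil⟩⟩ (fun k s => ⟨f k s :: s.1, (hf k s).1⟩) n
  have hst : ∀ n, (st (n + 1)).1 = f n (st n) :: (st n).1 := fun n => rfl
  let d : ℕ → V := fun n => (f n (st n)).1
  let d' : ℕ → V := fun n => (f n (st n)).2
  have hmem : ∀ n, ∀ i < n, (d i, d' i) ∈ (st n).1 := by
    intro n
    induction n with
    | zero => intro i hi; omega
    | succ n ih =>
      intro i hi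
      rw [hst, List.mem_cons]
      rcases Nat.lt_succ_iff_lt_or_eq.1 hi with h | rfl
      · exact Or.inr (ih i h)
      · exact Or.inl rfl
  have hd : ∀ i, d i ∈ M ∧ d' i ∈ M' := fun i =>
    (st (i + 1)).2.1 (d i, d' i) (hmem (i + 1) i (Nat.lt_succ_self i))
  have hAc : A.Countable := hA.1.1.mono hA.2.1
  obtain ⟨h, hh, hhd⟩ := st_TYPS V G X A hAc d d' (by
    intro n
    obtain ⟨k, hk, hkL⟩ := (st n).2.2
    refine ⟨k, hk, ?_⟩
    ext i
    exact hkL _ (hmem n i i.2))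
  refine ⟨h, hh, ?_⟩
  ext y
  constructor
  · rintro ⟨x, hx, rfl⟩
    rw [he] at hx
    obtain ⟨j, rfl⟩ := hx
    have h3 : d (2 * j) = e j := (hf (2 * j) (st (2 * j))).2.1 j rfl
    change h • e j ∈ M'
    rw [← h3, hhd]
    exact (hd _).2
  · intro hy
    rw [he'] at hy
    obtain ⟨j, rfl⟩ := hy
    have h3 : d' (2 * j + 1) = e' j := (hf (2 * j + 1) (st (2 * j + 1))).2.2 j rfl
    refine ⟨d (2 * j + 1), (hd _).1, ?_⟩
    change h • d (2 * j + 1) = e' j
    rw [hhd, h3]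

theorem st_PUNI (h1 : ST_ATMB) (h2 : ST_ISLB) : ST_PUNI := by
  intro V G _ _ X A M M' g hA hA'
  have hA1 : Atm X A (tr g⁻¹ M') := by
    have := (h1 V G X (tr g A) M').2.2.1 g⁻¹ hA'
    rwa [tr_inv_tr] at this
  obtain ⟨h, hh, hM⟩ := puni_one h1 h2 hA hA1
  refine ⟨g * h, ?_, ?_⟩
  · intro x hx
    rw [mul_smul, hh x hx]
  · rw [← tr_tr, hM, tr_tr_inv]

end Pool.Agent.Helper90.MZ
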